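import Mathlib

/-!
# Gluing: inhomogeneous approximation built from very good homogeneous approximations
-/

set_option autoImplicit false

open Finset Filter Topology

namespace Pool.Agent.V11270.Inh

/-- One good approximation `q ζ - p` with a multiplicity `b`; `R` is a further property of `b q`
and `b |q ζ - p|`. -/
def Good (ζ : ℝ) (R : ℝ → ℝ → Prop) (N q : ℕ) (p : ℤ) (b : ℕ) : Prop :=
  N ≤ q ∧ 1 ≤ q ∧ 1 ≤ b ∧ 0 < |(q : ℝ) * ζ - p| ∧ (b : ℝ) * |(q : ℝ) * ζ - p| ≤ 1 / (4 * q) ∧
    R ((b : ℝ) * q) ((b : ℝ) * |(q : ℝ) * ζ - p|)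

section build

variable {ζ : ℝ} {R : ℕ → ℝ → ℝ → Prop}

/-- The gluing lemma. -/
theorem build (h : ∀ K N : ℕ, ∃ (q : ℕ) (p : ℤ) (b : ℕ), Good ζ (R K) N q p b) :
    ∃ (α : ℝ) (Q E : ℕ → ℝ) (N : ℕ → ℕ), (∀ a c : ℤ, α ≠ a + c * ζ) ∧
      (∀ j, R j (Q j) (E j)) ∧ (∀ j, 0 < E j) ∧ (∀ j, 1 ≤ Q j) ∧ N 0 = 0 ∧ StrictMono N ∧
      (∀ j, (N (j + 1) : ℝ) ≤ 2 * Q j) ∧ (∀ j, (N j : ℝ) ≤ Q j) ∧ Tendsto Q atTop atTop ∧
      (∀ j, ∃ P : ℤ, |α + P + ζ * N j| ≤ 2 * E j) ∧
      (∀ j, ∀ x0 x1 : ℤ, 1 ≤ x1 → (x1 : ℝ) ≤ Q j / 2 → E j / 4 ≤ |α + x0 + ζ * x1|) := by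
  choose q p b hg using h
  -- the recursion: lower bound for the next denominator, and the sum of the `b q`
  let st : ℕ → ℕ × ℕ := fun j => Nat.rec (4, 0) (fun j s =>
    (max (max ⌈4 / ((b j s.1 : ℝ) * |(q j s.1 : ℝ) * ζ - p j s.1|)⌉₊
      (4 * (s.2 + b j s.1 * q j s.1))) (j + 5), s.2 + b j s.1 * q j s.1)) j
  have hst0 : st 0 = (4, 0) := rfl
  have hst : ∀ j, st (j + 1) =
    (max (max ⌈4 / ((b j (st j).1 : ℝ) * |(q j (st j).1 : ℝ) * ζ - p j (st j).1|)⌉₊
      (4 * ((st j).2 + b j (st j).1 * q j (st j).1))) (j + 5),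
      (st j).2 + b j (st j).1 * q j (st j).1) := fun j => rfl
  set qq : ℕ → ℕ := fun j => q j (st j).1 with hqq
  set pp : ℕ → ℤ := fun j => p j (st j).1 with hpp
  set bb : ℕ → ℕ := fun j => b j (st j).1 with hbb
  set N : ℕ → ℕ := fun j => (st j).2 with hN
  set e : ℕ → ℝ := fun j => (qq j : ℝ) * ζ - pp j with he
  have hG : ∀ j, Good ζ (R j) (st j).1 (qq j) (pp j) (bb j) := fun j => hg j (st j).1
  set E : ℕ → ℝ := fun j => (bb j : ℝ) * |e j| with hE
  have hq1 : ∀ j, 1 ≤ qq j := fun j => (hG j).2.1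
  have hb1 : ∀ j, 1 ≤ bb j := fun j => (hG j).2.2.1
  have hq1R : ∀ j, (1 : ℝ) ≤ qq j := fun j => by exact_mod_cast hq1 j
  have hb1R : ∀ j, (1 : ℝ) ≤ bb j := fun j => by exact_mod_cast hb1 j
  have he0 : ∀ j, 0 < |e j| := fun j => (hG j).2.2.2.1
  have hE0 : ∀ j, 0 < E j := fun j => mul_pos (by linarith [hb1R j]) (he0 j)
  have hES : ∀ j, E j ≤ 1 / (4 * qq j) := fun j => (hG j).2.2.2.2.1
  have hN0 : N 0 = 0 := rfl
  have hNs : ∀ j, N (j + 1) = N j + bb j * qq j := fun j => rfl
  have hNm : StrictMono N := strictMono_nat_of_lt_succ fun j => by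
    rw [hNs]
    have := Nat.mul_pos (hb1 j) (hq1 j)
    omega
  have hqs : ∀ j, 4 / E j ≤ qq (j + 1) ∧ 4 * N (j + 1) ≤ qq (j + 1) ∧ j + 5 ≤ qq (j + 1) := by
    intro j
    have h1 : (st (j + 1)).1 ≤ qq (j + 1) := (hG (j + 1)).1
    have h2 : (st (j + 1)).1 = max (max ⌈4 / E j⌉₊ (4 * N (j + 1))) (j + 5) := rfl
    rw [h2] at h1
    refine ⟨?_, ?_, ?_⟩
    · have h3 : ⌈4 / E j⌉₊ ≤ qq (j + 1) :=
        (le_trans (le_max_left _ _) (le_max_left _ _)).trans h1
      exact (Nat.le_ceil _).trans (by exact_mod_cast h3)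
    · exact (le_trans (le_max_right _ _) (le_max_left _ _)).trans h1
    · exact (le_max_right _ _).trans h1
  have hNq : ∀ j, 4 * N j ≤ qq j := by
    intro j
    cases j with
    | zero => rw [hN0]; omega
    | succ j => exact (hqs j).2.1
  have hEs : ∀ j, E (j + 1) ≤ E j / 16 := by
    intro j
    have h1 := hES (j + 1)
    have h2 := (hqs j).1
    have h3 : (0 : ℝ) < qq (j + 1) := by linarith [hq1R (j + 1)]
    rw [div_le_iff₀ (hE0 j)] at h2
    have h4 : 1 / (4 * (qq (j + 1) : ℝ)) ≤ E j / 16 := by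
      rw [div_le_div_iff₀ (by positivity) (by norm_num)]
      linarith
    linarith
  have hEg : ∀ j i, E (j + i) ≤ E j * (1 / 16) ^ i := by
    intro j i
    induction i with
    | zero => simp
    | succ i ih =>
      have := hEs (j + i)
      rw [pow_succ]
      calc E (j + (i + 1)) ≤ E (j + i) / 16 := this
        _ ≤ E j * (1 / 16) ^ i / 16 := by gcongr
        _ = _ := by ring
  -- the series
  set t : ℕ → ℝ := fun j => (bb j : ℝ) * e j with ht
  have htE : ∀ j, |t j| = E j := fun j => by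
    show |(bb j : ℝ) * e j| = (bb j : ℝ) * |e j|
    rw [abs_mul, Nat.abs_cast]
  have hsum : ∀ j, Summable fun i => t (i + j) := by
    intro j
    refine Summable.of_norm_bounded (g := fun i => E j * (1 / 16) ^ i)
      ((summable_geometric_of_lt_one (by norm_num) (by norm_num)).mul_left _) ?_
    intro i
    rw [Real.norm_eq_abs, htE, add_comm]
    exact hEg j i
  set T : ℕ → ℝ := fun j => ∑' i, t (i + j) with hT
  have hTb : ∀ j, |T j| ≤ 16 / 15 * E j := by
    intro j
    have h1 : |T j| ≤ ∑' i, |t (i + j)| := by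
      have := norm_tsum_le_tsum_norm (f := fun i => t (i + j)) (by
        simpa using (hsum j).norm)
      simpa [Real.norm_eq_abs] using this
    have h2 : ∑' i, |t (i + j)| ≤ ∑' i, E j * (1 / 16) ^ i := by
      refine Summable.tsum_le_tsum ?_ (by simpa using (hsum j).norm)
        ((summable_geometric_of_lt_one (by norm_num) (by norm_num)).mul_left _)
      intro i
      rw [htE, add_comm]
      exact hEg j i
    have h3 : ∑' i : ℕ, E j * (1 / 16 : ℝ) ^ i = 16 / 15 * E j := by
      rw [tsum_mul_left, tsum_geometric_of_lt_one (by norm_num) (by norm_num)]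
      norm_num
      ring
    linarith
  have hTs : ∀ j, T j = t j + T (j + 1) := by
    intro j
    have h1 := (hsum j).sum_add_tsum_nat_add 1
    simp only [Finset.sum_range_one, zero_add] at h1
    show ∑' i, t (i + j) = t j + ∑' i, t (i + (j + 1))
    rw [← h1]
    congr 1
    apply tsum_congr
    intro i
    congr 1
    ring
  have hT1 : ∀ j, |T (j + 1)| ≤ E j / 15 := by
    intro j
    have h1 := hTb (j + 1)
    have h2 := hEs j
    linarith
  set P : ℕ → ℤ := fun j => ∑ i ∈ Finset.range j, (bb i : ℤ) * pp i with hP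
  have hPs : ∀ j, P (j + 1) = P j + bb j * pp j := fun j => Finset.sum_range_succ _ _
  have hkey : ∀ j, -T 0 + ζ * N j - P j = -T j := by
    intro j
    induction j with
    | zero =>
      rw [hN0]
      simp [hP]
    | succ j ih =>
      have h1 := hTs j
      rw [hNs, hPs]
      push_cast
      have h2 : t j = (bb j : ℝ) * ((qq j : ℝ) * ζ - pp j) := rfl
      rw [h2] at h1
      linear_combination ih - h1
  have hNR : ∀ j, (N j : ℝ) ≤ qq j / 4 := by
    intro j
    have : ((4 * N j : ℕ) : ℝ) ≤ qq j := by exact_mod_cast hNq j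
    push_cast at this
    linarith
  have hqQ : ∀ j, (qq j : ℝ) ≤ (bb j : ℝ) * qq j := fun j => by nlinarith [hb1R j, hq1R j]
  refine ⟨-T 0, fun j => (bb j : ℝ) * qq j, E, N, ?_, fun j => (hG j).2.2.2.2.2, hE0, ?_, hN0,
    hNm, ?_, ?_, ?_, ?_, ?_⟩
  · -- not in `ℤ + ℤ ζ`
    intro a c hac
    -- choose `j` large
    obtain ⟨j, hj⟩ : ∃ j : ℕ, 4 * |(c : ℝ)| < qq (j + 1) := by
      obtain ⟨j, hj⟩ := exists_nat_gt (4 * |(c : ℝ)|)
      refine ⟨j, hj.trans_le ?_⟩
      have := (hqs j).2.2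
      exact_mod_cast (by omega : j ≤ qq (j + 1))
    set k := j + 1 with hk
    have h1 := hkey k
    rw [hac] at h1
    set m : ℤ := c + N k with hm
    set m' : ℤ := P k - a with hm'
    have h2 : (m : ℝ) * ζ - m' = -T k := by
      rw [hm, hm']
      push_cast
      linear_combination h1
    have hqpos : (0 : ℝ) < qq k := by linarith [hq1R k]
    have hmb : |(m : ℝ)| ≤ qq k / 2 := by
      rw [hm]
      push_cast
      calc |(c : ℝ) + N k| ≤ |(c : ℝ)| + |(N k : ℝ)| := abs_add_le _ _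
        _ ≤ qq k / 4 + qq k / 4 := by
            rw [Nat.abs_cast]
            have := hNR k
            linarith
        _ = _ := by ring
    have h3 : (qq k : ℝ) * ((m : ℝ) * ζ - m') = ((m * pp k - m' * qq k : ℤ) : ℝ) + m * e k := by
      have : e k = (qq k : ℝ) * ζ - pp k := rfl
      rw [this]
      push_cast
      ring
    have hTk : |T k| ≤ 16 / 15 * E k := hTb k
    have hTk2 : 14 / 15 * E k ≤ |T k| := by
      have h4 := hTs k
      have h5 := hT1 k
      have h6 := htE k
      have h7 : |t k| ≤ |T k| + |T (k + 1)| := by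
        have : t k = T k - T (k + 1) := by rw [h4]; ring
        rw [this]
        exact abs_sub _ _
      linarith
    have hekE : |e k| ≤ E k := by
      show |e k| ≤ (bb k : ℝ) * |e k|
      exact le_mul_of_one_le_left (abs_nonneg _) (hb1R k)
    by_cases h0 : m * pp k - m' * qq k = 0
    · rw [h0, Int.cast_zero, zero_add, h2] at h3
      have h4 : (qq k : ℝ) * |T k| = |(m : ℝ)| * |e k| := by
        rw [← abs_mul, ← h3, abs_mul, abs_neg, abs_of_pos hqpos]
      have h5 : (qq k : ℝ) * |T k| ≤ qq k / 2 * E k := by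
        rw [h4]
        exact mul_le_mul hmb hekE (abs_nonneg _) (by positivity)
      have h6 : (qq k : ℝ) * (14 / 15 * E k) ≤ qq k * |T k| :=
        mul_le_mul_of_nonneg_left hTk2 hqpos.le
      nlinarith [hE0 k, mul_pos hqpos (hE0 k)]
    · have h4 : (1 : ℝ) ≤ |((m * pp k - m' * qq k : ℤ) : ℝ)| := by
        rw [← Int.cast_abs]
        exact_mod_cast Int.one_le_abs h0
      have h5 : |((m * pp k - m' * qq k : ℤ) : ℝ)| ≤ (qq k : ℝ) * |T k| + |(m : ℝ)| * |e k| := by
        have : ((m * pp k - m' * qq k : ℤ) : ℝ) = (qq k : ℝ) * (-T k) - m * e k := by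
          rw [← h2, h3]
          ring
        rw [this]
        refine (abs_sub _ _).trans ?_
        rw [abs_mul, abs_mul, abs_neg, abs_of_pos hqpos]
      have h6 : |(m : ℝ)| * |e k| ≤ qq k / 2 * E k :=
        mul_le_mul hmb hekE (abs_nonneg _) (by positivity)
      have h7 : (qq k : ℝ) * |T k| ≤ qq k * (16 / 15 * E k) :=
        mul_le_mul_of_nonneg_left hTk hqpos.le
      have h8 : (qq k : ℝ) * E k ≤ 1 / 4 := by
        have := hES k
        rw [le_div_iff₀ (by positivity)] at this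
        linarith
      nlinarith
  · intro j
    have := hq1R j
    have := hqQ j
    show (1 : ℝ) ≤ (bb j : ℝ) * qq j
    linarith
  · intro j
    rw [hNs]
    push_cast
    have := hNR j
    have := hqQ j
    have := hq1R j
    linarith
  · intro j
    have := hNR j
    have := hqQ j
    have := hq1R j
    show (N j : ℝ) ≤ (bb j : ℝ) * qq j
    linarith
  · -- tends to infinity
    refine tendsto_atTop_mono (f := fun j : ℕ => (j : ℝ)) ?_ tendsto_natCast_atTop_atTop
    intro j
    have h1 : j ≤ qq j := by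
      cases j with
      | zero => omega
      | succ j =>
        have := (hqs j).2.2
        omega
    have h2 : (j : ℝ) ≤ qq j := by exact_mod_cast h1
    exact h2.trans (hqQ j)
  · intro j
    refine ⟨-P j, ?_⟩
    have h1 := hkey j
    have h2 : -T 0 + ((-P j : ℤ) : ℝ) + ζ * N j = -T j := by
      push_cast
      linarith
    rw [h2, abs_neg]
    have := hTb j
    have := hE0 j
    linarith
  · intro j x0 x1 hx1 hx1Q
    have hqpos : (0 : ℝ) < qq j := by linarith [hq1R j]
    have hbpos : (0 : ℝ) < bb j := by linarith [hb1R j]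
    have h1 := hkey (j + 1)
    set m : ℤ := N (j + 1) - x1 with hm
    set m' : ℤ := P (j + 1) + x0 with hm'
    have hval : -T 0 + x0 + ζ * x1 = -(((m : ℝ) * ζ - m') + T (j + 1)) := by
      rw [hm, hm']
      push_cast
      linear_combination h1
    have hNN : (N (j + 1) : ℝ) = N j + bb j * qq j := by
      rw [hNs]
      push_cast
      ring
    have hm1 : (bb j : ℝ) * qq j / 2 ≤ m := by
      rw [hm]
      push_cast
      rw [hNN]
      have : (0 : ℝ) ≤ N j := Nat.cast_nonneg _
      have hx : (x1 : ℝ) ≤ (bb j : ℝ) * qq j / 2 := hx1Q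
      linarith
    have hm2 : (m : ℝ) ≤ 2 * ((bb j : ℝ) * qq j) := by
      rw [hm]
      push_cast
      rw [hNN]
      have h2 : (1 : ℝ) ≤ x1 := by exact_mod_cast hx1
      have := hNR j
      have := hqQ j
      linarith
    have hm0 : (0 : ℝ) ≤ m := le_trans (by positivity) hm1
    have h3 : (qq j : ℝ) * ((m : ℝ) * ζ - m') = ((m * pp j - m' * qq j : ℤ) : ℝ) + m * e j := by
      have : e j = (qq j : ℝ) * ζ - pp j := rfl
      rw [this]
      push_cast
      ring
    have h8 : (qq j : ℝ) * E j ≤ 1 / 4 := by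
      have := hES j
      rw [le_div_iff₀ (by positivity)] at this
      linarith
    have hlow : E j / 2 ≤ |(m : ℝ) * ζ - m'| := by
      by_cases h0 : m * pp j - m' * qq j = 0
      · rw [h0, Int.cast_zero, zero_add] at h3
        have h4 : (qq j : ℝ) * |(m : ℝ) * ζ - m'| = m * |e j| := by
          rw [← abs_of_pos hqpos, ← abs_mul, h3, abs_mul, abs_of_nonneg hm0]
        have h5 : (bb j : ℝ) * qq j / 2 * |e j| ≤ m * |e j| :=
          mul_le_mul_of_nonneg_right hm1 (abs_nonneg _)
        have h6 : (qq j : ℝ) * (E j / 2) ≤ (qq j : ℝ) * |(m : ℝ) * ζ - m'| := by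
          rw [h4]
          refine le_trans (le_of_eq ?_) h5
          show (qq j : ℝ) * ((bb j : ℝ) * |e j| / 2) = _
          ring
        exact le_of_mul_le_mul_left h6 hqpos
      · have h4 : (1 : ℝ) ≤ |((m * pp j - m' * qq j : ℤ) : ℝ)| := by
          rw [← Int.cast_abs]
          exact_mod_cast Int.one_le_abs h0
        have h5 : |((m * pp j - m' * qq j : ℤ) : ℝ)| ≤
            (qq j : ℝ) * |(m : ℝ) * ζ - m'| + m * |e j| := by
          have : ((m * pp j - m' * qq j : ℤ) : ℝ) =
              (qq j : ℝ) * ((m : ℝ) * ζ - m') - m * e j := by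
            rw [h3]
            ring
          rw [this]
          refine (abs_sub _ _).trans ?_
          rw [abs_mul, abs_mul, abs_of_pos hqpos, abs_of_nonneg hm0]
        have h6 : (m : ℝ) * |e j| ≤ 2 * ((bb j : ℝ) * qq j) * |e j| :=
          mul_le_mul_of_nonneg_right hm2 (abs_nonneg _)
        have h7 : 2 * ((bb j : ℝ) * qq j) * |e j| = 2 * (qq j * E j) := by
          show _ = 2 * ((qq j : ℝ) * ((bb j : ℝ) * |e j|))
          ring
        have h9 : (qq j : ℝ) * (E j / 2) ≤ (qq j : ℝ) * |(m : ℝ) * ζ - m'| := by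
          nlinarith
        exact le_of_mul_le_mul_left h9 hqpos
    rw [hval, abs_neg]
    have h10 : |(m : ℝ) * ζ - m'| ≤ |(m : ℝ) * ζ - m' + T (j + 1)| + |T (j + 1)| := by
      have : (m : ℝ) * ζ - m' = ((m : ℝ) * ζ - m' + T (j + 1)) - T (j + 1) := by ring
      calc |(m : ℝ) * ζ - m'| = |((m : ℝ) * ζ - m' + T (j + 1)) - T (j + 1)| := by rw [← this]
        _ ≤ _ := abs_sub _ _
    have h11 := hT1 j
    have := hE0 j
    linarith

end build

end Pool.Agent.V11270.Inh
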