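import Pool.Agent.V11270.Inh.Build

/-!
# Choice of the homogeneous approximations for a Liouville number
-/

set_option autoImplicit false

open Finset Filter Topology

namespace Pool.Agent.V11270.Inh

/-- Good approximations with bounded-below denominator. -/
theorem exists_approx {ζ : ℝ} (hζ : Liouville ζ) (n N : ℕ) :
    ∃ (q : ℕ) (p : ℤ), N ≤ q ∧ 4 ≤ q ∧ 0 < |(q : ℝ) * ζ - p| ∧
      |(q : ℝ) * ζ - p| ≤ 1 / (q : ℝ) ^ n := by
  have h1 := hζ.frequently_exists_num (n + 1)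
  have h2 : ∀ᶠ b : ℕ in atTop, max N 4 ≤ b := eventually_ge_atTop _
  obtain ⟨q, ⟨a, ha1, ha2⟩, hq⟩ := (h1.and_eventually h2).exists
  have hq4 : 4 ≤ q := (le_max_right _ _).trans hq
  have hqR : (0 : ℝ) < q := by exact_mod_cast (by omega : 0 < q)
  have hval : (q : ℝ) * ζ - a = q * (ζ - a / q) := by
    field_simp
  refine ⟨q, a, (le_max_left _ _).trans hq, hq4, ?_, ?_⟩
  · rw [hval, abs_mul, abs_of_pos hqR]
    exact mul_pos hqR (abs_pos.mpr (sub_ne_zero.mpr ha1))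
  · rw [hval, abs_mul, abs_of_pos hqR]
    calc (q : ℝ) * |ζ - a / q| ≤ q * (1 / (q : ℝ) ^ (n + 1)) :=
          mul_le_mul_of_nonneg_left ha2.le hqR.le
      _ = _ := by
          rw [pow_succ]
          field_simp

/-- The case of a finite exponent. -/
theorem choice_fin {ζ : ℝ} (hζ : Liouville ζ) {w : ℝ} (hw : 0 ≤ w) (K N : ℕ) :
    ∃ (q : ℕ) (p : ℤ) (b : ℕ), Good ζ (fun Q E => E ≤ Q ^ (-w) ∧
      Q ^ (-(w + 1 / (K + 1 : ℝ))) ≤ E) N q p b := by
  -- the exponent needed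
  set n : ℕ := ⌈(1 + w) * ((3 + w) * (K + 1) + 1) + w + 2⌉₊ with hn
  obtain ⟨q, p, hqN, hq4, he0, he⟩ := exists_approx hζ n N
  set e : ℝ := |(q : ℝ) * ζ - p| with hedef
  have hqR4 : (4 : ℝ) ≤ q := by exact_mod_cast hq4
  have hqR : (0 : ℝ) < q := by linarith
  have hq1 : (1 : ℝ) ≤ q := by linarith
  have hw1 : 0 < 1 + w := by linarith
  have hw1' : (1 + w) ≠ 0 := hw1.ne'
  set A : ℝ := e⁻¹ * (q : ℝ) ^ (-(w + 2)) with hA
  have hApos : 0 < A := mul_pos (inv_pos.mpr he0) (Real.rpow_pos_of_pos hqR _)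
  set M : ℝ := (3 + w) * (K + 1) + 1 with hM
  have hM0 : 0 ≤ M := by positivity
  have hAlow : (q : ℝ) ^ ((1 + w) * M) ≤ A := by
    have h1 : (q : ℝ) ^ ((1 + w) * M + w + 2) ≤ e⁻¹ := by
      have h2 : (q : ℝ) ^ n ≤ e⁻¹ := by
        rw [le_inv_comm₀ (by positivity) he0, ← one_div]
        exact he
      refine le_trans ?_ h2
      rw [← Real.rpow_natCast]
      exact Real.rpow_le_rpow_of_exponent_le hq1 (Nat.le_ceil _)
    calc (q : ℝ) ^ ((1 + w) * M) = (q : ℝ) ^ ((1 + w) * M + w + 2) * (q : ℝ) ^ (-(w + 2)) := by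
          rw [← Real.rpow_add hqR]
          congr 1
          ring
      _ ≤ _ := mul_le_mul_of_nonneg_right h1 (Real.rpow_nonneg hqR.le _)
  set B : ℝ := A ^ (1 / (1 + w)) with hB
  have hBlow : (q : ℝ) ^ M ≤ B := by
    have := Real.rpow_le_rpow (by positivity) hAlow (by positivity : 0 ≤ 1 / (1 + w))
    rwa [← Real.rpow_mul hqR.le, mul_one_div, mul_div_cancel_left₀ _ hw1'] at this
  have hBA : B ^ (1 + w) = A := by
    rw [hB, ← Real.rpow_mul hApos.le, one_div, inv_mul_cancel₀ hw1', Real.rpow_one]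
  have hB1 : 1 ≤ B := (Real.one_le_rpow hq1 hM0).trans hBlow
  set b : ℕ := ⌊B⌋₊ with hb
  have hb1 : 1 ≤ b := by
    rw [hb]
    exact Nat.le_floor (by simpa using hB1)
  have hb1R : (1 : ℝ) ≤ b := by exact_mod_cast hb1
  have hbpos : (0 : ℝ) < b := by linarith
  have hbB : (b : ℝ) ≤ B := Nat.floor_le (by linarith)
  have hbB2 : B / 2 ≤ b := by
    have := Nat.lt_floor_add_one B
    have h2 : B < (b : ℝ) + 1 := this
    linarith
  have hbA : (b : ℝ) ^ (1 + w) ≤ A := by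
    rw [← hBA]
    exact Real.rpow_le_rpow hbpos.le hbB hw1.le
  have hbe : (b : ℝ) ^ (1 + w) * e ≤ (q : ℝ) ^ (-(w + 2)) := by
    calc (b : ℝ) ^ (1 + w) * e ≤ A * e := mul_le_mul_of_nonneg_right hbA he0.le
      _ = _ := by
        rw [hA]
        field_simp
  have hbw : (b : ℝ) ^ (1 + w) = b * (b : ℝ) ^ w := by
    rw [Real.rpow_add hbpos, Real.rpow_one]
  refine ⟨q, p, b, hqN, by omega, hb1, he0, ?_, ?_, ?_⟩
  · -- `b e ≤ 1 / (4 q)`
    have h1 : (b : ℝ) * e ≤ (b : ℝ) ^ (1 + w) * e := by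
      refine mul_le_mul_of_nonneg_right ?_ he0.le
      rw [hbw]
      exact le_mul_of_one_le_right hbpos.le (Real.one_le_rpow hb1R hw)
    have h2 : (q : ℝ) ^ (-(w + 2)) ≤ (q : ℝ) ^ (-(2 : ℝ)) :=
      Real.rpow_le_rpow_of_exponent_le hq1 (by linarith)
    have h3 : (q : ℝ) ^ (-(2 : ℝ)) ≤ 1 / (4 * q) := by
      rw [Real.rpow_neg hqR.le, Real.rpow_two, ← one_div]
      apply one_div_le_one_div_of_le (by positivity)
      nlinarith
    linarith
  · -- `b e ≤ (b q) ^ (-w)`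
    show (b : ℝ) * e ≤ ((b : ℝ) * q) ^ (-w)
    rw [Real.mul_rpow hbpos.le hqR.le, Real.rpow_neg hbpos.le]
    have h2 : (q : ℝ) ^ (-(w + 2)) ≤ (q : ℝ) ^ (-w) :=
      Real.rpow_le_rpow_of_exponent_le hq1 (by linarith)
    have hbwp : 0 < (b : ℝ) ^ w := Real.rpow_pos_of_pos hbpos _
    rw [inv_mul_eq_div, le_div_iff₀ hbwp]
    rw [hbw] at hbe
    linarith
  · -- lower bound
    show ((b : ℝ) * q) ^ (-(w + 1 / (K + 1 : ℝ))) ≤ (b : ℝ) * e
    set δ : ℝ := 1 / (K + 1 : ℝ) with hδ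
    have hδ0 : 0 < δ := by positivity
    have hK0 : (0 : ℝ) < K + 1 := by positivity
    have hδK : δ * (K + 1) = 1 := by rw [hδ]; field_simp
    have hbqpos : 0 < (b : ℝ) * q := by positivity
    rw [Real.rpow_neg hbqpos.le, inv_le_comm₀ (Real.rpow_pos_of_pos hbqpos _) (by positivity)]
    -- `1 / (b e) ≤ (b q) ^ (w + δ)`
    rw [Real.mul_rpow hbpos.le hqR.le, Real.rpow_add hbpos]
    have hbδ : (q : ℝ) ^ (3 + w) ≤ (b : ℝ) ^ δ := by
      have h1 : (q : ℝ) ^ ((3 + w) * (K + 1)) ≤ b := by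
        refine le_trans ?_ hbB2
        have h2 : (q : ℝ) ^ ((3 + w) * (K + 1)) * 2 ≤ B := by
          refine le_trans ?_ hBlow
          rw [hM, Real.rpow_add hqR, Real.rpow_one]
          exact mul_le_mul_of_nonneg_left (by linarith) (Real.rpow_nonneg hqR.le _)
        linarith
      have h2 := Real.rpow_le_rpow (Real.rpow_nonneg hqR.le _) h1 hδ0.le
      rwa [← Real.rpow_mul hqR.le, mul_assoc, mul_comm ((K : ℝ) + 1) δ, hδK, mul_one] at h2
    -- `b ^ (1 + w) ≥ A / 2 ^ (1 + w)`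
    have hblow : A / 2 ^ (1 + w) ≤ (b : ℝ) ^ (1 + w) := by
      have := Real.rpow_le_rpow (by positivity) hbB2 hw1.le
      rwa [Real.div_rpow (by linarith) (by norm_num), hBA] at this
    have h2q : (2 : ℝ) ^ (1 + w) ≤ (q : ℝ) ^ (1 + w) :=
      Real.rpow_le_rpow (by norm_num) (by linarith) hw1.le
    have h2pos : (0 : ℝ) < 2 ^ (1 + w) := Real.rpow_pos_of_pos (by norm_num) _
    have hqpos1 : (0 : ℝ) < (q : ℝ) ^ (1 + w) := Real.rpow_pos_of_pos hqR _
    -- combine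
    rw [inv_le_iff_one_le_mul₀ (by positivity)]
    have hqδ : 1 ≤ (q : ℝ) ^ δ := Real.one_le_rpow hq1 hδ0.le
    have hqwδ : (q : ℝ) ^ (w + δ) = (q : ℝ) ^ w * (q : ℝ) ^ δ := Real.rpow_add hqR _ _
    have hAq : A * e = (q : ℝ) ^ (-(w + 2)) := by
      rw [hA]
      field_simp
    have hbe2 : (q : ℝ) ^ (-(w + 2)) ≤ (b : ℝ) ^ (1 + w) * e * (q : ℝ) ^ (1 + w) := by
      rw [← hAq]
      have h3 : A ≤ (b : ℝ) ^ (1 + w) * 2 ^ (1 + w) := by
        rwa [div_le_iff₀ h2pos] at hblow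
      have h4 : A ≤ (b : ℝ) ^ (1 + w) * (q : ℝ) ^ (1 + w) :=
        h3.trans (mul_le_mul_of_nonneg_left h2q (Real.rpow_nonneg hbpos.le _))
      nlinarith [mul_le_mul_of_nonneg_right h4 he0.le]
    have h1 : (q : ℝ) ^ (-(w + 2)) * (q : ℝ) ^ (-(1 + w)) ≤ (b : ℝ) ^ (1 + w) * e := by
      rw [Real.rpow_neg hqR.le (1 + w), ← div_eq_mul_inv, div_le_iff₀ hqpos1]
      exact hbe2
    calc (1 : ℝ) = (q : ℝ) ^ (-(w + 2)) * (q : ℝ) ^ (-(1 + w)) *
            ((q : ℝ) ^ (3 + w) * (q : ℝ) ^ w) := by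
          rw [← Real.rpow_add hqR, ← Real.rpow_add hqR, ← Real.rpow_add hqR]
          rw [show -(w + 2) + -(1 + w) + (3 + w + w) = 0 by ring, Real.rpow_zero]
      _ ≤ ((b : ℝ) ^ (1 + w) * e) * ((b : ℝ) ^ δ * (q : ℝ) ^ (w + δ)) := by
          refine mul_le_mul h1 ?_ (by positivity) (by positivity)
          refine mul_le_mul hbδ ?_ (by positivity) (by positivity)
          rw [hqwδ]
          exact le_mul_of_one_le_right (by positivity) hqδ
      _ = _ := by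
          rw [hbw]
          ring

/-- The case of an infinite exponent. -/
theorem choice_inf {ζ : ℝ} (hζ : Liouville ζ) (K N : ℕ) :
    ∃ (q : ℕ) (p : ℤ) (b : ℕ), Good ζ (fun Q E => E ≤ Q ^ (-(K : ℝ))) N q p b := by
  obtain ⟨q, p, hqN, hq4, he0, he⟩ := exists_approx hζ (K + 2) N
  have hqR4 : (4 : ℝ) ≤ q := by exact_mod_cast hq4
  have hqR : (0 : ℝ) < q := by linarith
  have hq1 : (1 : ℝ) ≤ q := by linarith
  refine ⟨q, p, 1, hqN, by omega, le_refl 1, he0, ?_, ?_⟩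
  · rw [Nat.cast_one, one_mul]
    refine he.trans ?_
    apply one_div_le_one_div_of_le (by positivity)
    rw [pow_add]
    have : (1 : ℝ) ≤ (q : ℝ) ^ K := one_le_pow₀ hq1
    nlinarith [mul_le_mul_of_nonneg_right this (by positivity : (0 : ℝ) ≤ (q : ℝ) ^ 2)]
  · show ((1 : ℕ) : ℝ) * _ ≤ (((1 : ℕ) : ℝ) * q) ^ (-(K : ℝ))
    rw [Nat.cast_one, one_mul, one_mul]
    refine he.trans ?_
    rw [Real.rpow_neg hqR.le, Real.rpow_natCast, ← one_div]
    apply one_div_le_one_div_of_le (by positivity)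
    exact pow_le_pow_right₀ hq1 (by omega)

end Pool.Agent.V11270.Inh
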